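import Pool.Agent.H17.CX.Targets
import Pool.Agent.H48.SFG.ITA
import Pool.Agent.H63.SFG.PRE
import Pool.Agent.H61.SFG.QDA
import Pool.Agent.H99.SFG.NRM

/-!
# MP_70ba79_ag, row NZB: common denominator of the integral elements
-/

set_option autoImplicit false

open MvPolynomial SC Pool.Agent.H27.LV
open Pool.Agent.H92.SF Pool.Agent.H3.SF Pool.Agent.H17.SD Pool.Agent.H17.SFG Pool.Agent.H17.CX

namespace Pool.Agent.H68.CNX

open scoped IntermediateField.algebraAdjoinAdjoin

theorem pf_NZB : T_NZB := by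
  intro k σ LL _ _ _ _ _ ρ W htop hW hind hint
  have ita : T_ITA := Pool.Agent.H48.SFG.pf_ITA
  set w : Fin 2 → LL := fun l => ρ (W l) with hw
  set x : σ → LL := fun i => ρ (MvPolynomial.X i) with hx
  have hρx : ∀ f, ρ f = aeval x f := by
    have h1 : ρ = (aeval x : MvPolynomial σ k →ₐ[k] LL) :=
      MvPolynomial.algHom_ext fun i => by rw [aeval_X]
    intro f
    exact DFunLike.congr_fun h1 f
  have hadj : IntermediateField.adjoin k (Set.range x) = ⊤ := by
    rw [eq_top_iff, ← htop, IntermediateField.adjoin_le_iff]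
    rintro _ ⟨f, rfl⟩
    show ρ f ∈ IntermediateField.adjoin k (Set.range x)
    rw [hρx]
    induction f using MvPolynomial.induction_on with
    | C a =>
      rw [aeval_C]
      exact (IntermediateField.adjoin k (Set.range x)).algebraMap_mem a
    | add p q hp hq =>
      rw [map_add]
      exact add_mem hp hq
    | mul_X p i hp =>
      rw [map_mul, aeval_X]
      exact mul_mem hp (IntermediateField.subset_adjoin k _ ⟨i, rfl⟩)
  have hi : ∀ s, IsIntegral (kF k w) (x s) := by
    intro s
    have h4 : IsIntegral (PA k w) (x s) := (ita k LL (Fin 2) w (x s)).mp (hint s)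
    exact h4.tower_top
  have htop' := Pool.Agent.H99.SFG.nrm_top x (kF k w) hadj
  have hfd : FiniteDimensional (kF k w) LL := by
    have h4 : FiniteDimensional (kF k w) (IntermediateField.adjoin (kF k w) (Set.range x)) := by
      apply IntermediateField.finiteDimensional_adjoin
      rintro _ ⟨s, rfl⟩
      exact hi s
    rw [htop'] at h4
    exact LinearEquiv.finiteDimensional
      (IntermediateField.topEquiv (F := kF k w) (E := LL)).toLinearEquiv
  obtain ⟨θ, hθ, hθt⟩ := Pool.Agent.H63.SFG.pf_PRE k LL σ (kF k w) hfd x htop'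
  have hθi : Itg k w θ := by
    have h1 : Submodule.span k (Set.range x) ≤ Subalgebra.toSubmodule (Bb k w) := by
      rw [Submodule.span_le]
      rintro _ ⟨s, rfl⟩
      exact hint s
    exact h1 hθ
  obtain ⟨hq1, hq2, hq3⟩ := Pool.Agent.H61.SFG.pf_QDA ita k LL (Fin 2) w θ hind hfd hθt hθi
  have hθρ : θ ∈ ρ.range := by
    have h1 : Submodule.span k (Set.range x) ≤ Subalgebra.toSubmodule ρ.range := by
      rw [Submodule.span_le]
      rintro _ ⟨s, rfl⟩
      exact ⟨MvPolynomial.X s, rfl⟩
    exact h1 hθ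
  have hPB : PB k w θ ≤ ρ.range := by
    refine Algebra.adjoin_le ?_
    intro y hy
    rcases hy with hy | hy
    · rw [hy]; exact hθρ
    · obtain ⟨l, rfl⟩ := hy
      exact ⟨W l, rfl⟩
  obtain ⟨c, hc⟩ := hPB hq2
  have hc' : ρ c = qd k w θ := hc
  refine ⟨c, ?_, fun z hz => ?_⟩
  · rw [hc']; exact hq3
  · obtain ⟨b, hb⟩ := hPB (hq1 z hz)
    refine ⟨b, ?_⟩
    rw [hc']
    exact hb.symm

end Pool.Agent.H68.CNX
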